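import Pool.Agent.Lib.P0a42ff.Final

/-!
# The space of final subsets of a narrow order-scattered poset is canonically Skula

The Cantor-Bendixson rank of the compact scattered distributive lattice `FS(P)` is supermodular for
the natural sum of ordinals.  For a final set `I` one collects, for every peak `K` of the rank below
`I` (and below strict peaks of `I`), the first element of the difference in a well-ordering of `P`;
narrowness and compactness show that finitely many of these requirements imply all of them, and the
requirements, together with the dual ones, cut out the clopen set `U_I`.
-/

set_option autoImplicit false

universe u

open Pool.Agent.Lib.P0a42ff in
/-- For every narrow order-scattered poset `P` the space `FS(P)` of final subsets of `P` has a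
clopen selector `U` such that every subspace `U x` is unitary with end-point `x`. -/
theorem Pool.Agent.Results.MP_0a42ff_gt.CanonicallySkula.result :
    ∀ (P : Type u) [PartialOrder P], Narrow P → OrderScattered P → CanonicallySkula (FS P) :=
  fun P _ hP hQ => canonicallySkula P hP hQ
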